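import Pool.Agent.H8.Es1

namespace Pool.Agent.Results.MP_46a37f_co.PrimeParts

open H8.Es

theorem result : ∀ n k p : ℕ, 2 ≤ k → (p = 1 ∨ p.Prime) →
    (fwdDiff 1)^[k - 1] (R k p) n = N p n :=
  fun n k p hk hp => main n k p hk hp

end Pool.Agent.Results.MP_46a37f_co.PrimeParts
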